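import Pool.Agent.H458.AG.Loc

/-!
# Project AG (helper458), part RED2 (helper650): composition of Mumford pairs into one binary form

The proof is an adaptation of `Pool.Agent.N2.PQ.cant` (library): no condition on the degree of `f`, and no normalisation of
the polynomials.
-/

set_option autoImplicit false
set_option linter.all false

open Polynomial

namespace Pool.Agent.H650.AG458

open Pool.Agent.N783.PQ (LocIm)

variable {F : Type} [Field F]

/-- avoiding finitely many values of the parameter -/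
lemma exists_t [CharZero F] (f u₁ v₁ w₀ h : F[X]) (hw : u₁ * w₀ = v₁ ^ 2 - f) (hc : IsCoprime u₁ f)
    (hh : h ≠ 0) : ∃ t : F, IsCoprime (w₀ + C (2 * t) * v₁ + C (t ^ 2) * u₁) h := by
  classical
  let K := AlgebraicClosure F
  let q : K → K[X] := fun x => C (aeval x w₀) + C (2 * aeval x v₁) * X + C (aeval x u₁) * X ^ 2
  have hq : ∀ x : K, q x ≠ 0 := by
    intro x h0
    have h1 : aeval x w₀ = 0 := by
      have := congrArg (fun p => coeff p 0) h0
      simpa [q] using this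
    have h2 : aeval x v₁ = 0 := by
      have := congrArg (fun p => coeff p 1) h0
      simpa [q, coeff_X, coeff_C] using this
    have h3 : aeval x u₁ = 0 := by
      have := congrArg (fun p => coeff p 2) h0
      simpa [q, coeff_X, coeff_C] using this
    have h4 : aeval x f = 0 := by
      have := congrArg (aeval x) hw
      rw [map_mul, map_sub, map_pow, h3, h2] at this
      simpa using this
    obtain ⟨a, b, hab⟩ := hc
    have := congrArg (aeval x) hab
    rw [map_add, map_mul, map_mul, h3, h4] at this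
    simp at this
  let Z : Finset K := (h.aroots K).toFinset
  let Bd : Finset K := Z.biUnion fun x => (q x).roots.toFinset
  have hinf : (Set.range (algebraMap F K)).Infinite :=
    Set.infinite_range_of_injective (algebraMap F K).injective
  obtain ⟨_, ⟨t, rfl⟩, ht⟩ := hinf.exists_notMem_finset Bd
  refine ⟨t, ?_⟩
  rw [Polynomial.isCoprime_iff_aeval_ne_zero_of_isAlgClosed F K]
  intro x
  by_cases hx : aeval x h = 0
  · left
    intro h1
    apply ht
    rw [Finset.mem_biUnion]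
    refine ⟨x, ?_, ?_⟩
    · rw [Multiset.mem_toFinset, mem_aroots]
      exact ⟨hh, hx⟩
    · rw [Multiset.mem_toFinset, mem_roots (hq x), IsRoot.def]
      rw [← h1]
      simp only [q, eval_add, eval_mul, eval_C, eval_X, eval_pow, map_add, map_mul, aeval_C,
        map_ofNat, map_pow, eval_ofNat]
      ring
  · exact Or.inr hx

lemma mk_iff (f a b : F[X]) : f ∣ a - b ↔ AdjoinRoot.mk f a = AdjoinRoot.mk f b :=
  AdjoinRoot.mk_eq_mk.symm

/-- the composition of two divisors -/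
lemma two [CharZero F] (f u₁ v₁ u₂ v₂ : F[X]) (hf : f ≠ 0)
    (hc : IsCoprime u₁ f) (hdv : u₁ ∣ v₁ ^ 2 - f)
    (hu' : u₂ ≠ 0) (hc' : IsCoprime u₂ f) (hdv' : u₂ ∣ v₂ ^ 2 - f) :
    ∃ u v s : F[X], u ≠ 0 ∧ IsCoprime u f ∧ u ∣ v ^ 2 - f ∧ f ∣ u₁ * u₂ * u - s ^ 2 := by
  obtain ⟨w₀, hw0⟩ := hdv
  obtain ⟨t, ht⟩ := exists_t f u₁ v₁ w₀ (f * u₂ * X) hw0.symm hc
    (mul_ne_zero (mul_ne_zero hf hu') X_ne_zero)
  obtain ⟨u, hu⟩ : ∃ u, u = w₀ + C (2 * t) * v₁ + C (t ^ 2) * u₁ := ⟨_, rfl⟩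
  obtain ⟨v, hv⟩ : ∃ v, v = v₁ + C t * u₁ := ⟨_, rfl⟩
  rw [← hu] at ht
  have huw : u₁ * u = v ^ 2 - f := by
    rw [hu, hv]
    have : C (2 * t) = 2 * (C t : F[X]) := by rw [C_mul]; rfl
    rw [this, C_pow]
    linear_combination -hw0
  have h2 : u ∣ v ^ 2 - f := ⟨u₁, by rw [← huw]; ring⟩
  have hX : IsCoprime u X := (IsCoprime.mul_right_iff.1 ht).2
  have h3 : IsCoprime u (f * u₂) := (IsCoprime.mul_right_iff.1 ht).1
  have h5 : IsCoprime u f := (IsCoprime.mul_right_iff.1 h3).1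
  have h6 : IsCoprime u u₂ := (IsCoprime.mul_right_iff.1 h3).2
  have hu0 : u ≠ 0 := by
    intro h0
    rw [h0] at hX
    exact not_isUnit_X (isCoprime_zero_left.1 hX)
  obtain ⟨a, b, hab⟩ := h6
  refine ⟨u * u₂, v * (b * u₂) + v₂ * (a * u), v * u₂, mul_ne_zero hu0 hu', h5.mul_left hc', ?_, ?_⟩
  · apply IsCoprime.mul_dvd ⟨a, b, hab⟩
    · have e : (v * (b * u₂) + v₂ * (a * u)) ^ 2 - f = (v ^ 2 - f) +
          u * (a * (v₂ - v)) * (v * (b * u₂) + v₂ * (a * u) + v) := by
        have hb : b * u₂ = 1 - a * u := by rw [← hab]; ring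
        rw [hb]; ring
      rw [e]
      exact dvd_add h2 (Dvd.intro _ (by ring : u * ((a * (v₂ - v)) *
        (v * (b * u₂) + v₂ * (a * u) + v)) = _))
    · have e : (v * (b * u₂) + v₂ * (a * u)) ^ 2 - f = (v₂ ^ 2 - f) +
          u₂ * (b * (v - v₂)) * (v * (b * u₂) + v₂ * (a * u) + v₂) := by
        have hb : a * u = 1 - b * u₂ := by rw [← hab]; ring
        rw [hb]; ring
      rw [e]
      exact dvd_add hdv' (Dvd.intro _ (by ring : u₂ * ((b * (v - v₂)) *
        (v * (b * u₂) + v₂ * (a * u) + v₂)) = _))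
  · have e : u₁ * u₂ * (u * u₂) - (v * u₂) ^ 2 = f * (- u₂ ^ 2) := by
      linear_combination (u₂ ^ 2) * huw
    rw [e]
    exact dvd_mul_right _ _

lemma isCoprime_sgn {u f : F[X]} (n : ℕ) (h : IsCoprime u f) : IsCoprime ((-1) ^ n * u) f := by
  have hunit : IsUnit ((-1 : F[X]) ^ n) := (isUnit_one.neg).pow _
  exact (isCoprime_mul_unit_left_left hunit _ _).2 h

lemma many [CharZero F] (f : F[X]) (hf : f ≠ 0) (l : List (F[X] × F[X]))
    (hl : ∀ p ∈ l, p.1.Monic ∧ IsCoprime p.1 f ∧ p.1 ∣ p.2 ^ 2 - f) :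
    ∃ u v t : F[X], u ≠ 0 ∧ IsCoprime u f ∧ u ∣ v ^ 2 - f ∧
      f ∣ (l.map fun p => (-1) ^ p.1.natDegree * p.1).prod * u - t ^ 2 := by
  induction l with
  | nil => exact ⟨1, 0, 1, one_ne_zero, isCoprime_one_left, one_dvd _, by simp⟩
  | cons p l ih =>
    obtain ⟨u, v, t, h1, h2, h3, h4⟩ := ih fun p hp => hl p (List.mem_cons_of_mem _ hp)
    obtain ⟨k1, k2, k3⟩ := hl p List.mem_cons_self
    have hunit : IsUnit ((-1 : F[X]) ^ p.1.natDegree) := (isUnit_one.neg).pow _
    obtain ⟨u', v', s, h1', h2', h3', h4'⟩ := two f ((-1) ^ p.1.natDegree * p.1) p.2 u v hf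
      (isCoprime_sgn _ k2) ((hunit.mul_left_dvd).2 k3) h1 h2 h3
    obtain ⟨a, b, hab⟩ := h2
    refine ⟨u', v', t * s * a, h1', h2', h3', ?_⟩
    rw [List.map_cons, List.prod_cons]
    rw [mk_iff] at h4 h4' ⊢
    have h5 : AdjoinRoot.mk f a * AdjoinRoot.mk f u = 1 := by
      have := congrArg (AdjoinRoot.mk f) hab
      rw [map_add, map_mul, map_mul, AdjoinRoot.mk_self, mul_zero, add_zero, map_one] at this
      exact this
    simp only [map_mul, map_pow] at h4 h4' ⊢
    set P := AdjoinRoot.mk f (List.map (fun p => (-1) ^ p.1.natDegree * p.1) l).prod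
    linear_combination (-(P * (AdjoinRoot.mk f (-1) ^ p.1.natDegree * AdjoinRoot.mk f p.1) *
      AdjoinRoot.mk f u') * (1 + AdjoinRoot.mk f a * AdjoinRoot.mk f u)) * h5 +
      (AdjoinRoot.mk f a) ^ 2 * ((AdjoinRoot.mk f (-1) ^ p.1.natDegree * AdjoinRoot.mk f p.1) *
        AdjoinRoot.mk f u * AdjoinRoot.mk f u') * h4 +
      (AdjoinRoot.mk f a) ^ 2 * (AdjoinRoot.mk f t) ^ 2 * h4'

/-- a root of a product of elements coprime to `f` is coprime to `f` -/
lemma cop_root {f a b s : F[X]} (ha : IsCoprime a f) (hb : IsCoprime b f)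
    (h : f ∣ a * b - s ^ 2) : IsCoprime s f := by
  obtain ⟨c, hc⟩ := h
  have h1 : IsCoprime (a * b) f := ha.mul_left hb
  have h2 : IsCoprime (s ^ 2 + f * c) f := by
    have e : s ^ 2 + f * c = a * b := by rw [← hc]; ring
    rw [e]
    exact h1
  have h3 : IsCoprime (s ^ 2) f := IsCoprime.of_add_mul_left_left h2
  exact (IsCoprime.pow_left_iff (by norm_num)).1 h3

theorem red2 : Pool.Agent.H458.AG.S_RED2 := by
  intro k _ _ f h hf hsq hcop hL
  obtain ⟨l, s, hl, hs⟩ := hL
  obtain ⟨u, v, t, h1, h2, h3, h4⟩ := many f hf.ne_zero l hl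
  have hP : IsCoprime (l.map fun p => (-1) ^ p.1.natDegree * p.1).prod f := by
    apply IsCoprime.symm
    have : ∀ l : List (k[X] × k[X]), (∀ p ∈ l, IsCoprime p.1 f) →
        IsCoprime f (l.map fun p => (-1) ^ p.1.natDegree * p.1).prod := by
      intro l
      induction l with
      | nil => intro _; exact isCoprime_one_right
      | cons p l ih =>
        intro hl
        rw [List.map_cons, List.prod_cons]
        exact IsCoprime.mul_right (isCoprime_sgn _ (hl p List.mem_cons_self)).symm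
          (ih fun p hp => hl p (List.mem_cons_of_mem _ hp))
    exact this l fun p hp => (hl p hp).2.1
  have hsc : IsCoprime s f := cop_root hcop hP hs
  have htc : IsCoprime t f := cop_root hP h2 h4
  obtain ⟨a, b, hab⟩ := hP
  have hac : IsCoprime a f := ⟨(l.map fun p => (-1) ^ p.1.natDegree * p.1).prod, b, by
    rw [mul_comm _ a]; exact hab⟩
  obtain ⟨w, hw⟩ := h3
  refine ⟨u, v, w, s * t * a, ?_, h2, (hsc.mul_left htc).mul_left hac, ?_⟩
  · rw [← hw]; ring
  set P := (l.map fun p => (-1) ^ p.1.natDegree * p.1).prod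
  rw [mk_iff] at hs h4 ⊢
  have h5 : AdjoinRoot.mk f a * AdjoinRoot.mk f P = 1 := by
    have := congrArg (AdjoinRoot.mk f) hab
    rw [map_add, map_mul, map_mul, AdjoinRoot.mk_self, mul_zero, add_zero, map_one] at this
    exact this
  simp only [map_mul, map_pow] at hs h4 ⊢
  linear_combination (-(AdjoinRoot.mk f h * AdjoinRoot.mk f u) *
      (1 + AdjoinRoot.mk f a * AdjoinRoot.mk f P)) * h5 +
    (AdjoinRoot.mk f a) ^ 2 * (AdjoinRoot.mk f P * AdjoinRoot.mk f u) * hs +
    (AdjoinRoot.mk f a) ^ 2 * (AdjoinRoot.mk f s) ^ 2 * h4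

end Pool.Agent.H650.AG458
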